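import Pool.Agent.K1H53.EX.Plan2

/-!
# Limits of time averages (piece S_CES)
-/

set_option autoImplicit false

open MeasureTheory Filter Topology
open scoped CompactlySupported

namespace Pool.Agent.K1H99.EX

open Pool.Agent.K1H53.EX

/-- A positive normalised functional on `C(X, ℝ)` is given by a probability measure. -/
theorem riesz_compact {X : Type} [TopologicalSpace X] [CompactSpace X] [T2Space X]
    [MeasurableSpace X] [BorelSpace X] (Λ : C(X, ℝ) → ℝ)
    (hadd : ∀ f g, Λ (f + g) = Λ f + Λ g) (hsmul : ∀ (c : ℝ) f, Λ (c • f) = c * Λ f)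
    (hmono : ∀ f g, f ≤ g → Λ f ≤ Λ g) (h1 : Λ 1 = 1) :
    ∃ ν : Measure X, IsProbabilityMeasure ν ∧ ∀ f : C(X, ℝ), ∫ x, f x ∂ν = Λ f := by
  let L : C_c(X, ℝ) →ₚ[ℝ] ℝ :=
  { toFun g := Λ (g : C(X, ℝ))
    map_add' g g' := hadd _ _
    map_smul' c g := hsmul _ _
    monotone' g g' hgg' := hmono _ _ hgg' }
  have key : ∀ f : C(X, ℝ), ∫ x, f x ∂(RealRMK.rieszMeasure L) = Λ f := by
    intro f
    exact RealRMK.integral_rieszMeasure L (CompactlySupportedContinuousMap.continuousMapEquiv f)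
  have : IsFiniteMeasure (RealRMK.rieszMeasure L) := by infer_instance
  refine ⟨RealRMK.rieszMeasure L, ⟨?_⟩, key⟩
  have h2 := key 1
  simp only [ContinuousMap.one_apply, integral_const, smul_eq_mul, mul_one, h1] at h2
  have h4 : ((RealRMK.rieszMeasure L) Set.univ).toReal = 1 := h2
  have := ENNReal.ofReal_toReal (measure_ne_top (RealRMK.rieszMeasure L) Set.univ)
  rw [← this, h4]; simp

section

variable {S : Type} [Fintype S] [DecidableEq S] [TopologicalSpace S] [DiscreteTopology S]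
  [MeasurableSpace S] [BorelSpace S]

theorem sg_nonneg {a : S × S → S × S} {p : ℤ → ℝ} {P : ℝ → C(ℤ → S, ℝ) →L[ℝ] C(ℤ → S, ℝ)}
    (h : IsSG a p P) {t : ℝ} (ht : 0 ≤ t) {f : C(ℤ → S, ℝ)} (hf : 0 ≤ f) : 0 ≤ P t f := by
  refine h.conv {f | 0 ≤ f} ?_ ?_ ?_ t ht f hf
  · have e : {f : C(ℤ → S, ℝ) | 0 ≤ f} = ⋂ η, {f | 0 ≤ f η} := by
      ext f
      simp only [Set.mem_ofPred_eq, Set.mem_iInter]
      exact ⟨fun h η => h η, fun h η => h η⟩
    rw [e]
    exact isClosed_iInter fun η => isClosed_le continuous_const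
      (continuous_eval_const η)
  · exact convex_Ici 0
  · intro f hf u v
    intro η
    show (0:ℝ) ≤ f (TC a u v η)
    exact hf (TC a u v η)

theorem sg_one {a : S × S → S × S} {p : ℤ → ℝ} {P : ℝ → C(ℤ → S, ℝ) →L[ℝ] C(ℤ → S, ℝ)}
    (h : IsSG a p P) {t : ℝ} (ht : 0 ≤ t) : P t 1 = 1 := by
  have := h.conv {(1 : C(ℤ → S, ℝ))} isClosed_singleton (convex_singleton _) ?_ t ht 1 rfl
  · exact this
  · intro f hf u v
    rw [Set.mem_singleton_iff] at hf ⊢
    subst hf
    rfl

theorem sg_mono {a : S × S → S × S} {p : ℤ → ℝ} {P : ℝ → C(ℤ → S, ℝ) →L[ℝ] C(ℤ → S, ℝ)}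
    (h : IsSG a p P) {t : ℝ} (ht : 0 ≤ t) {f g : C(ℤ → S, ℝ)} (hf : f ≤ g) : P t f ≤ P t g := by
  have := sg_nonneg h ht (sub_nonneg.2 hf)
  rw [map_sub] at this
  exact sub_nonneg.1 this

end

theorem t_CES : S_CES := by
  intro S _ _ _ _ _ _ a p P π hP hπ
  classical
  -- the averages
  have hint : ∀ f : C(ℤ → S, ℝ), Integrable (fun η => f η) π := fun f =>
    (BoundedContinuousFunction.mkOfCompact f).integrable π
  set I : C(ℤ → S, ℝ) → ℝ := fun f => ∫ η, f η ∂π with hI
  have Iadd : ∀ f g, I (f + g) = I f + I g := fun f g => integral_add (hint f) (hint g)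
  have Ismul : ∀ (c : ℝ) f, I (c • f) = c * I f := fun c f => integral_const_mul c _
  have Imono : ∀ f g, f ≤ g → I f ≤ I g := fun f g hfg => integral_mono (hint f) (hint g) hfg
  have Ione : I 1 = 1 := by simp [hI]
  have Icont : Continuous I := by
    have hlip : ∀ f g, |I f - I g| ≤ ‖f - g‖ := by
      intro f g
      have e : I f - I g = ∫ η, (f - g) η ∂π := by
        simp only [hI, ContinuousMap.sub_apply]
        rw [integral_sub (hint f) (hint g)]
      rw [e, ← Real.norm_eq_abs]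
      refine (norm_integral_le_of_norm_le_const (C := ‖f - g‖)
        (Eventually.of_forall fun η => (f - g).norm_coe_le_norm η)).trans ?_
      simp
    rw [Metric.continuous_iff]
    intro f ε hε
    refine ⟨ε, hε, fun g hg => ?_⟩
    rw [Real.dist_eq]
    rw [dist_eq_norm] at hg
    exact (hlip g f).trans_lt hg
  set G : C(ℤ → S, ℝ) → ℝ → ℝ := fun f t => I (P t f) with hG
  have Gcont : ∀ f, ContinuousOn (G f) (Set.Ici 0) := fun f =>
    Icont.comp_continuousOn (hP.cont f)
  have Gint : ∀ f (x y : ℝ), 0 ≤ x → 0 ≤ y → IntervalIntegrable (G f) volume x y := by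
    intro f x y hx hy
    refine (Gcont f).mono ?_ |>.intervalIntegrable
    intro z hz
    rw [Set.mem_uIcc] at hz
    rw [Set.mem_Ici]
    rcases hz with hz | hz <;> linarith [hz.1]
  have Gbd : ∀ f t, 0 ≤ t → |G f t| ≤ ‖f‖ := by
    intro f t ht
    have e1 : G (‖f‖ • (1 : C(ℤ → S, ℝ))) t = ‖f‖ := by
      simp only [hG]
      rw [map_smul, sg_one hP ht, Ismul, Ione, mul_one]
    rw [abs_le]
    constructor
    · have h2 : G (-(‖f‖ • (1 : C(ℤ → S, ℝ)))) t ≤ G f t := by
        apply Imono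
        apply sg_mono hP ht
        intro η
        show -(‖f‖ * 1) ≤ f η
        rw [mul_one]
        exact (abs_le.1 (f.norm_coe_le_norm η)).1
      have h3 : G (-(‖f‖ • (1 : C(ℤ → S, ℝ)))) t = -‖f‖ := by
        have : -(‖f‖ • (1 : C(ℤ → S, ℝ))) = (-1 : ℝ) • (‖f‖ • (1 : C(ℤ → S, ℝ))) := by
          rw [neg_one_smul]
        rw [this]
        simp only [hG] at e1 ⊢
        rw [map_smul, Ismul, e1]; ring
      linarith
    · rw [← e1]
      apply Imono
      apply sg_mono hP ht
      intro η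
      show f η ≤ ‖f‖ * 1
      rw [mul_one]
      exact (abs_le.1 (f.norm_coe_le_norm η)).2
  set A : ℕ → C(ℤ → S, ℝ) → ℝ := fun n f => ((n : ℝ) + 1)⁻¹ * ∫ t in (0:ℝ)..((n : ℝ) + 1), G f t
    with hA
  have hn0 : ∀ n : ℕ, (0:ℝ) < (n : ℝ) + 1 := fun n => by positivity
  have Aadd : ∀ n f g, A n (f + g) = A n f + A n g := by
    intro n f g
    simp only [hA]
    rw [← mul_add, ← intervalIntegral.integral_add (Gint f _ _ le_rfl (hn0 n).le)
      (Gint g _ _ le_rfl (hn0 n).le)]
    congr 1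
    apply intervalIntegral.integral_congr
    intro t _
    simp only [hG, map_add, Iadd]
  have Asmul : ∀ n (c : ℝ) f, A n (c • f) = c * A n f := by
    intro n c f
    simp only [hA, hG, map_smul, Ismul]
    rw [intervalIntegral.integral_const_mul]
    ring
  have Ale : ∀ n f (c : ℝ), (∀ t, 0 ≤ t → G f t ≤ c) → A n f ≤ c := by
    intro n f c hc
    simp only [hA]
    have : ∫ t in (0:ℝ)..((n : ℝ) + 1), G f t ≤ ∫ t in (0:ℝ)..((n : ℝ) + 1), c := by
      apply intervalIntegral.integral_mono_on (hn0 n).le (Gint f _ _ le_rfl (hn0 n).le)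
        intervalIntegrable_const
      intro t ht
      exact hc t ht.1
    rw [intervalIntegral.integral_const, smul_eq_mul, sub_zero] at this
    calc ((n : ℝ) + 1)⁻¹ * ∫ t in (0:ℝ)..((n : ℝ) + 1), G f t
        ≤ ((n : ℝ) + 1)⁻¹ * (((n : ℝ) + 1) * c) :=
          mul_le_mul_of_nonneg_left this (inv_nonneg.2 (hn0 n).le)
      _ = c := by
          rw [← mul_assoc, inv_mul_cancel₀ (hn0 n).ne', one_mul]
  have Amono : ∀ n f g, f ≤ g → A n f ≤ A n g := by
    intro n f g hfg
    have h1 : A n (f - g) ≤ 0 := by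
      apply Ale
      intro t ht
      simp only [hG]
      have : I (P t (f - g)) ≤ I 0 := by
        apply Imono
        rw [map_sub]
        exact sub_nonpos.2 (sg_mono hP ht hfg)
      refine this.trans (le_of_eq ?_)
      simp [hI]
    have h2 : A n f = A n (f - g) + A n g := by
      rw [← Aadd]; congr 1; abel
    linarith
  have Aone : ∀ n, A n 1 = 1 := by
    intro n
    simp only [hA]
    have : ∫ t in (0:ℝ)..((n : ℝ) + 1), G 1 t = ∫ t in (0:ℝ)..((n : ℝ) + 1), (1:ℝ) := by
      apply intervalIntegral.integral_congr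
      intro t ht
      rw [Set.uIcc_of_le (hn0 n).le] at ht
      simp only [hG]
      rw [sg_one hP ht.1, Ione]
    rw [this, intervalIntegral.integral_const, smul_eq_mul, sub_zero, mul_one,
      inv_mul_cancel₀ (hn0 n).ne']
  have Abd : ∀ n f, A n f ∈ Set.Icc (-‖f‖) ‖f‖ := by
    intro n f
    constructor
    · have h1 : A n ((-1 : ℝ) • f) ≤ ‖f‖ := by
        apply Ale
        intro t ht
        have := Gbd ((-1 : ℝ) • f) t ht
        rw [neg_one_smul, norm_neg, abs_le] at this
        rw [neg_one_smul]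
        exact this.2
      rw [Asmul] at h1
      linarith
    · exact Ale n f _ fun t ht => (abs_le.1 (Gbd f t ht)).2
  -- the limit
  set U : Ultrafilter ℕ := hyperfilter ℕ with hU
  have hlim : ∀ f, ∃ x, Tendsto (fun n => A n f) U (𝓝 x) := by
    intro f
    obtain ⟨x, -, hx⟩ := (isCompact_Icc (a := -‖f‖) (b := ‖f‖)).ultrafilter_le_nhds
      (U.map fun n => A n f) (by
        rw [le_principal_iff]
        exact Eventually.of_forall (f := (U : Filter ℕ)) fun n => Abd n f)
    exact ⟨x, hx⟩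
  choose Λ hΛ using hlim
  have : (U : Filter ℕ).NeBot := U.neBot
  have Ladd : ∀ f g, Λ (f + g) = Λ f + Λ g := fun f g =>
    tendsto_nhds_unique (hΛ (f + g)) (((hΛ f).add (hΛ g)).congr fun n => (Aadd n f g).symm)
  have Lsmul : ∀ (c : ℝ) f, Λ (c • f) = c * Λ f := fun c f =>
    tendsto_nhds_unique (hΛ (c • f)) (((hΛ f).const_mul c).congr fun n => (Asmul n c f).symm)
  have Lmono : ∀ f g, f ≤ g → Λ f ≤ Λ g := fun f g hfg =>
    le_of_tendsto_of_tendsto (hΛ f) (hΛ g) (Eventually.of_forall fun n => Amono n f g hfg)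
  have Lone : Λ 1 = 1 := tendsto_nhds_unique (hΛ 1)
    (tendsto_const_nhds.congr fun n => (Aone n).symm)
  obtain ⟨ν, hν, hνΛ⟩ := riesz_compact Λ Ladd Lsmul Lmono Lone
  refine ⟨ν, hν, ?_, ?_⟩
  · intro s hs f
    rw [hνΛ, hνΛ]
    -- the difference of the averages tends to zero
    have hdiff : ∀ n, |A n (P s f) - A n f| ≤ ((n : ℝ) + 1)⁻¹ * (2 * s * ‖f‖) := by
      intro n
      have e1 : ∫ t in (0:ℝ)..((n : ℝ) + 1), G (P s f) t =
          ∫ t in s..((n : ℝ) + 1 + s), G f t := by
        have e2 : ∫ t in (0:ℝ)..((n : ℝ) + 1), G (P s f) t =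
            ∫ t in (0:ℝ)..((n : ℝ) + 1), G f (t + s) := by
          apply intervalIntegral.integral_congr
          intro t ht
          rw [Set.uIcc_of_le (hn0 n).le] at ht
          simp only [hG]
          rw [hP.add t s ht.1 hs]
        rw [e2, intervalIntegral.integral_comp_add_right (fun t => G f t) s, zero_add]
      have hns : (0:ℝ) ≤ (n : ℝ) + 1 + s := by linarith [(hn0 n).le]
      have e3 : ∫ t in s..((n : ℝ) + 1 + s), G f t =
          (∫ t in (0:ℝ)..((n : ℝ) + 1), G f t) +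
            (∫ t in ((n : ℝ) + 1)..((n : ℝ) + 1 + s), G f t) - ∫ t in (0:ℝ)..s, G f t := by
        have e4 := intervalIntegral.integral_add_adjacent_intervals
          (Gint f 0 ((n : ℝ) + 1) le_rfl (hn0 n).le)
          (Gint f ((n : ℝ) + 1) ((n : ℝ) + 1 + s) (hn0 n).le hns)
        have e5 := intervalIntegral.integral_add_adjacent_intervals
          (Gint f 0 s le_rfl hs) (Gint f s ((n : ℝ) + 1 + s) hs hns)
        linarith
      have b1 : |∫ t in ((n : ℝ) + 1)..((n : ℝ) + 1 + s), G f t| ≤ ‖f‖ * s := by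
        have := intervalIntegral.norm_integral_le_of_norm_le_const
          (a := (n : ℝ) + 1) (b := (n : ℝ) + 1 + s) (C := ‖f‖) (f := G f) (fun t ht => by
            rw [Set.uIoc_of_le (by linarith)] at ht
            rw [Real.norm_eq_abs]
            exact Gbd f t (by linarith [ht.1, (hn0 n).le]))
        rw [Real.norm_eq_abs] at this
        refine this.trans (le_of_eq ?_)
        rw [add_sub_cancel_left, abs_of_nonneg hs]
      have b2 : |∫ t in (0:ℝ)..s, G f t| ≤ ‖f‖ * s := by
        have := intervalIntegral.norm_integral_le_of_norm_le_const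
          (a := 0) (b := s) (C := ‖f‖) (f := G f) (fun t ht => by
            rw [Set.uIoc_of_le hs] at ht
            rw [Real.norm_eq_abs]
            exact Gbd f t ht.1.le)
        rw [Real.norm_eq_abs] at this
        refine this.trans (le_of_eq ?_)
        rw [sub_zero, abs_of_nonneg hs]
      have e6 : A n (P s f) - A n f = ((n : ℝ) + 1)⁻¹ *
          ((∫ t in ((n : ℝ) + 1)..((n : ℝ) + 1 + s), G f t) - ∫ t in (0:ℝ)..s, G f t) := by
        simp only [hA]
        rw [e1, e3]; ring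
      rw [e6, abs_mul, abs_of_pos (inv_pos.2 (hn0 n))]
      apply mul_le_mul_of_nonneg_left _ (inv_nonneg.2 (hn0 n).le)
      refine (abs_sub _ _).trans ?_
      linarith
    have h0 : Tendsto (fun n : ℕ => ((n : ℝ) + 1)⁻¹ * (2 * s * ‖f‖)) U (𝓝 0) := by
      have h1 : Tendsto (fun n : ℕ => ((n : ℝ) + 1)⁻¹) atTop (𝓝 0) := by
        simpa using tendsto_one_div_add_atTop_nhds_zero_nat (𝕜 := ℝ)
      have h2 : Tendsto (fun n : ℕ => ((n : ℝ) + 1)⁻¹ * (2 * s * ‖f‖)) atTop (𝓝 0) := by
        simpa using h1.mul_const (2 * s * ‖f‖)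
      refine h2.mono_left ?_
      rw [← Nat.cofinite_eq_atTop]
      exact hyperfilter_le_cofinite
    have h3 : Tendsto (fun n => A n (P s f) - A n f) U (𝓝 0) :=
      squeeze_zero_norm (fun n => by rw [Real.norm_eq_abs]; exact hdiff n) h0
    have h4 := tendsto_nhds_unique h3 ((hΛ (P s f)).sub (hΛ f))
    linarith
  · intro f c hc
    rw [hνΛ]
    exact le_of_tendsto (hΛ f) (Eventually.of_forall fun n => Ale n f c hc)

end Pool.Agent.K1H99.EX
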